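import Mathlib

set_option autoImplicit false

namespace Cov42

open Finset

/-- the main theorem on sequences (proved elsewhere) -/
def MainSeq : Prop := ∀ C : ℝ, 1 ≤ C → ∀ δ : ℝ, 0 < δ → ∃ N : ℕ,
  ∀ (G : Type) [AddCommGroup G] [Fintype G] [DecidableEq G], N ≤ Fintype.card G →
    ((univ.filter (fun a : Fin (Nat.sqrt (Fintype.card G)) → G => Function.Injective a ∧
        ∃ T : Finset G, (T.card : ℝ) ≤ C * Real.sqrt (Fintype.card G) ∧
          ∀ x : G, ∃ t ∈ T, ∃ l, a l + t = x)).card : ℝ)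
      ≤ δ * (Fintype.card G : ℝ) ^ (Nat.sqrt (Fintype.card G))

theorem pow_le_descFactorial_aux (n : ℕ) (j : ℕ) (hj : j ≤ n) :
    (n : ℝ) ^ j * (2 * n - (j:ℝ) ^ 2) ≤ 2 * n * (n.descFactorial j : ℝ) := by
  induction j with
  | zero => simp
  | succ j ih =>
    have h1 := ih (by omega)
    have h2 : (0:ℝ) ≤ (n:ℝ) - j := by
      have : (j:ℝ) ≤ n := by exact_mod_cast (by omega : j ≤ n)
      linarith
    rw [Nat.descFactorial_succ, Nat.cast_mul, Nat.cast_sub (by omega)]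
    have h3 : (n : ℝ) ^ j * (2 * n - (j:ℝ) ^ 2) * ((n:ℝ) - j) ≤
        2 * n * (n.descFactorial j : ℝ) * ((n:ℝ) - j) := mul_le_mul_of_nonneg_right h1 h2
    have h4 : (n : ℝ) ^ (j+1) * (2 * n - ((j:ℝ) + 1) ^ 2) ≤
        (n : ℝ) ^ j * (2 * n - (j:ℝ) ^ 2) * ((n:ℝ) - j) := by
      have h5 : (n : ℝ) ^ j * (2 * n - (j:ℝ) ^ 2) * ((n:ℝ) - j) -
          (n : ℝ) ^ (j+1) * (2 * n - ((j:ℝ) + 1) ^ 2) = (n:ℝ) ^ j * ((j:ℝ) ^ 3 + n) := by
        ring
      have h6 : 0 ≤ (n:ℝ) ^ j * ((j:ℝ) ^ 3 + n) := by positivity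
      linarith
    push_cast
    calc _ ≤ _ := h4
      _ ≤ _ := h3
      _ = _ := by ring

theorem pow_le_descFactorial (n k : ℕ) (hk : k * k ≤ n) :
    (n : ℝ) ^ k ≤ 2 * (n.descFactorial k : ℝ) := by
  rcases Nat.eq_zero_or_pos n with h0 | hn
  · subst h0
    have : k = 0 := by
      by_contra h
      have := Nat.mul_pos (Nat.pos_of_ne_zero h) (Nat.pos_of_ne_zero h)
      omega
    subst this
    norm_num
  · have hkn : k ≤ n := le_trans (Nat.le_mul_self k) hk
    have h1 := pow_le_descFactorial_aux n k hkn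
    have hn' : (0:ℝ) < n := by exact_mod_cast hn
    have h2 : ((k:ℝ)) ^ 2 ≤ n := by
      rw [pow_two]; exact_mod_cast hk
    have h3 : (n : ℝ) ^ k * n ≤ (n : ℝ) ^ k * (2 * n - (k:ℝ) ^ 2) :=
      mul_le_mul_of_nonneg_left (by linarith) (by positivity)
    have h4 : (n : ℝ) ^ k * n ≤ 2 * (n.descFactorial k : ℝ) * n := by
      calc _ ≤ _ := h3
        _ ≤ _ := h1
        _ = _ := by ring
    exact le_of_mul_le_mul_right h4 hn'

/-- transfer to k-subsets of any finite abelian group -/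
theorem subsets_of_seq (h : MainSeq) (C : ℝ) (hC : 1 ≤ C) (δ : ℝ) (hδ : 0 < δ) : ∃ N : ℕ,
    ∀ (G : Type) [AddCommGroup G] [Fintype G] [DecidableEq G], N ≤ Fintype.card G →
      ((univ.filter (fun A : Finset G => A.card = Nat.sqrt (Fintype.card G) ∧
        ∃ T : Finset G, (T.card : ℝ) ≤ C * Real.sqrt (Fintype.card G) ∧
          ∀ x : G, ∃ t ∈ T, ∃ y ∈ A, t + y = x)).card : ℝ)
      ≤ δ * ((Fintype.card G).choose (Nat.sqrt (Fintype.card G)) : ℝ) := by
  obtain ⟨N, hN⟩ := h C hC (δ / 2) (by positivity)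
  refine ⟨N, ?_⟩
  intro G _ _ _ hG
  have h1 := hN G hG
  set n := Fintype.card G with hn
  set k := Nat.sqrt n with hk
  set badA : Finset (Finset G) := univ.filter (fun A : Finset G => A.card = k ∧
        ∃ T : Finset G, (T.card : ℝ) ≤ C * Real.sqrt n ∧
          ∀ x : G, ∃ t ∈ T, ∃ y ∈ A, t + y = x) with hbadA
  set badS : Finset (Fin k → G) := univ.filter (fun a : Fin k → G => Function.Injective a ∧
        ∃ T : Finset G, (T.card : ℝ) ≤ C * Real.sqrt n ∧
          ∀ x : G, ∃ t ∈ T, ∃ l, a l + t = x) with hbadS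
  have hmaps : ∀ a ∈ badS, (univ.image a : Finset G) ∈ badA := by
    intro a ha
    rw [hbadS, mem_filter] at ha
    obtain ⟨-, hinj, T, hT, hcov⟩ := ha
    rw [hbadA, mem_filter]
    refine ⟨mem_univ _, ?_, T, hT, ?_⟩
    · rw [card_image_of_injective _ hinj, card_univ, Fintype.card_fin]
    · intro x
      obtain ⟨t, ht, l, hl⟩ := hcov x
      exact ⟨t, ht, a l, mem_image_of_mem _ (mem_univ _), by rw [add_comm]; exact hl⟩
  have hfib : ∀ A ∈ badA, k.factorial ≤ (badS.filter (fun a => (univ.image a : Finset G) = A)).card := by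
    intro A hA
    rw [hbadA, mem_filter] at hA
    obtain ⟨-, hAk, T, hT, hcov⟩ := hA
    have e : Fin k ≃ A := (A.equivFinOfCardEq hAk).symm
    have h2 : (univ : Finset (Equiv.Perm (Fin k))).card = k.factorial := by
      rw [card_univ, Fintype.card_perm, Fintype.card_fin]
    rw [← h2]
    refine card_le_card_of_injOn (fun σ => fun i => ((e (σ i) : A) : G)) ?_ ?_
    · intro σ _
      rw [mem_coe, mem_filter, hbadS, mem_filter]
      have himg : (univ.image (fun i => ((e (σ i) : A) : G)) : Finset G) = A := by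
        ext x
        rw [mem_image]
        constructor
        · rintro ⟨i, -, rfl⟩
          exact (e (σ i)).2
        · intro hx
          refine ⟨σ.symm (e.symm ⟨x, hx⟩), mem_univ _, ?_⟩
          simp
      refine ⟨⟨mem_univ _, ?_, T, hT, ?_⟩, himg⟩
      · intro i j hij
        exact σ.injective (e.injective (Subtype.ext hij))
      · intro x
        obtain ⟨t, ht, y, hy, hty⟩ := hcov x
        refine ⟨t, ht, σ.symm (e.symm ⟨y, hy⟩), ?_⟩
        simp only [Equiv.apply_symm_apply]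
        rw [add_comm]; exact hty
    · intro σ _ τ _ hst
      ext i
      have := congrFun hst i
      have h3 := e.injective (Subtype.ext this)
      rw [h3]
  have hcount : badA.card * k.factorial ≤ badS.card := by
    rw [card_eq_sum_card_fiberwise (f := fun a : Fin k → G => (univ.image a : Finset G))
      (t := badA) hmaps]
    calc badA.card * k.factorial = ∑ _A ∈ badA, k.factorial := by
          rw [sum_const, smul_eq_mul]
      _ ≤ _ := sum_le_sum hfib
  have h2 : (badA.card : ℝ) * (k.factorial : ℝ) ≤ (badS.card : ℝ) := by exact_mod_cast hcount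
  have h3 := pow_le_descFactorial n k (Nat.sqrt_le n)
  rw [Nat.descFactorial_eq_factorial_mul_choose, Nat.cast_mul] at h3
  have h4 : (0:ℝ) < (k.factorial : ℝ) := by exact_mod_cast Nat.factorial_pos k
  have h5 : (badA.card : ℝ) * (k.factorial : ℝ) ≤ δ * (n.choose k : ℝ) * (k.factorial : ℝ) := by
    calc (badA.card : ℝ) * (k.factorial : ℝ) ≤ (badS.card : ℝ) := h2
      _ ≤ δ / 2 * (n:ℝ) ^ k := h1
      _ ≤ δ / 2 * (2 * ((k.factorial : ℝ) * (n.choose k : ℝ))) :=
          mul_le_mul_of_nonneg_left h3 (by positivity)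
      _ = δ * (n.choose k : ℝ) * (k.factorial : ℝ) := by ring
  exact le_of_mul_le_mul_right h5 h4

open Classical in
/-- the frozen negation S07636 of MP_e20aca_co -/
theorem frozen_of_seq (h : MainSeq) :
    ¬ (∀ θ : ℝ, 0 < θ → θ ≤ 1 / 2 →
      ∃ C : ℝ, 1 < C ∧
        ∀ ε : ℝ, 0 < ε → ∃ N : ℕ, ∀ p : ℕ, N ≤ p → p.Prime →
          1 - ε <
            (((Finset.univ : Finset (Finset (Fin p))).filter
                (fun A => A.card = ⌊(p : ℝ) ^ θ⌋₊ ∧
                  ∃ T : Finset (Fin p), T.card ≤ ⌊C * (p : ℝ) ^ (1 - θ)⌋₊ ∧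
                    ∀ x : Fin p, ∃ t ∈ T, ∃ a ∈ A, t + a = x)).card : ℝ) /
              ((p.choose ⌊(p : ℝ) ^ θ⌋₊ : ℕ) : ℝ)) := by
  intro H
  obtain ⟨C, hC, HC⟩ := H (1/2) (by norm_num) le_rfl
  obtain ⟨N1, hN1⟩ := HC (1/2) (by norm_num)
  obtain ⟨N2, hN2⟩ := subsets_of_seq h C hC.le (1/2) (by norm_num)
  obtain ⟨p, hpN, hp⟩ := Nat.exists_infinite_primes (N1 + N2)
  have h1 := hN1 p (by omega) hp
  have : NeZero p := ⟨hp.ne_zero⟩
  have h2 := hN2 (Fin p) (by rw [Fintype.card_fin]; omega)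
  rw [Fintype.card_fin] at h2
  have hsq : ⌊(p : ℝ) ^ (1/2 : ℝ)⌋₊ = Nat.sqrt p := by
    rw [← Real.sqrt_eq_rpow, Real.nat_floor_real_sqrt_eq_nat_sqrt]
  rw [hsq] at h1
  have hch : (0:ℝ) < (p.choose (Nat.sqrt p) : ℝ) := by
    exact_mod_cast Nat.choose_pos (Nat.sqrt_le_self p)
  rw [lt_div_iff₀ hch] at h1
  have h3 : (((Finset.univ : Finset (Finset (Fin p))).filter
                (fun A => A.card = Nat.sqrt p ∧
                  ∃ T : Finset (Fin p), T.card ≤ ⌊C * (p : ℝ) ^ (1 - 1/2 : ℝ)⌋₊ ∧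
                    ∀ x : Fin p, ∃ t ∈ T, ∃ a ∈ A, t + a = x)).card : ℝ) ≤
      ((univ.filter (fun A : Finset (Fin p) => A.card = Nat.sqrt p ∧
        ∃ T : Finset (Fin p), (T.card : ℝ) ≤ C * Real.sqrt p ∧
          ∀ x : Fin p, ∃ t ∈ T, ∃ y ∈ A, t + y = x)).card : ℝ) := by
    norm_cast
    refine card_le_card ?_
    intro A hA
    rw [mem_filter] at hA ⊢
    obtain ⟨hu, hcard, T, hT, hcov⟩ := hA
    refine ⟨hu, hcard, T, ?_, hcov⟩
    have h4 : (T.card : ℝ) ≤ (⌊C * (p : ℝ) ^ (1 - 1/2 : ℝ)⌋₊ : ℝ) := by exact_mod_cast hT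
    refine le_trans h4 (le_trans (Nat.floor_le (by positivity)) (le_of_eq ?_))
    rw [Real.sqrt_eq_rpow]
    norm_num
  have h5 := le_trans h3 (le_trans (Nat.cast_le.mpr (card_le_card fun A hA =>
    (@Finset.mem_filter _ _ (_) _ _).mpr ((@Finset.mem_filter _ _ (_) _ _).mp hA))) h2)
  linarith

end Cov42
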